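import Mathlib
import Pool.Agent.Lib.MP_5bc52d_co.AA.Degrees
import Pool.Agent.Lib.MP_5bc52d_co.AA.Common
import Pool.Agent.Lib.MP_5bc52d_co.TA.Final
import Pool.Agent.Lib.MP_5bc52d_co.TA.Main
import Pool.Agent.Lib.MP_5bc52d_co.KR.Main

/-!
# Irreducibility of P-partition generating functions: almost all posets, every labelling

For all but a proportion of at most `ε` of the strict partial orders `r` on `Fin n`, the generating
function of the labelled poset `(r, w)` is irreducible in the ring of quasisymmetric functions for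
EVERY labelling `w`.
-/

namespace Pool.Agent.Results.MP_5bc52d_co.EveryLabelling

/-- The relation `r` is a strict partial order. -/
def IsOrder {n : ℕ} (r : Fin n → Fin n → Prop) : Prop :=
  (∀ x, ¬ r x x) ∧ ∀ x y z, r x y → r y z → r x z

/-- The generating function of the `P`-partitions of the strict partial order `r` on `Fin n` with
the labels `w`: the monomials of the maps `f` which are weakly increasing along `r`, and strictly
increasing along the relations whose labels decrease. -/
noncomputable def Gen {n : ℕ} (r : Fin n → Fin n → Prop) (w : Fin n → ℕ) : MvPowerSeries ℕ ℚ :=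
  fun m : ℕ →₀ ℕ =>
    ((Nat.card {f : Fin n → ℕ //
      (∀ a b : Fin n, r a b → f a ≤ f b ∧ (w b < w a → f a < f b)) ∧
        ∑ i : Fin n, Finsupp.single (f i) 1 = m} : ℕ) : ℚ)

open Pool.Agent.Lib.MP_5bc52d_co Pool.Agent.Lib.MP_5bc52d_co.Cut Pool.Agent.Lib.MP_5bc52d_co.AA
  Pool.Agent.Lib.MP_5bc52d_co.TA

theorem layered_so {δ : ℝ} {n : ℕ} {r : Fin n → Fin n → Prop} (h : Layered δ n r) :
    IsOrder r := by
  obtain ⟨A, B, C, ⟨h1, h2, h3, h4, h5, h6, h7⟩, h8, h9⟩ := h
  have h : LayR r A B C := ⟨h1, h2, h3, h4, h8, h9⟩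
  exact ⟨layR_irrefl h, layR_trans h⟩

open Classical in
/-- For almost all posets the generating function is irreducible for every labelling. -/
theorem result :
    ∀ (Q : Subring (MvPowerSeries ℕ ℚ)),
      (∀ F : MvPowerSeries ℕ ℚ, F ∈ Q ↔
        ((∃ N : ℕ, ∀ m : ℕ →₀ ℕ, N < m.sum (fun _ e => e) → F m = 0) ∧
          ∀ m : ℕ →₀ ℕ, ∀ g : ℕ → ℕ, StrictMono g → F (Finsupp.mapDomain g m) = F m)) →
      ∀ ε : ℝ, 0 < ε → ∃ N : ℕ, ∀ n ≥ N,
        (Nat.card {r : Fin n → Fin n → Prop // IsOrder r ∧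
          ¬ ∀ w : Fin n → ℕ, Function.Injective w →
            ∃ G : Q, (G : MvPowerSeries ℕ ℚ) = Gen r w ∧ Irreducible G} : ℝ) ≤
        ε * Nat.card {r : Fin n → Fin n → Prop // IsOrder r} := by
  intro Q hQ ε hε
  have hQ' : ∀ F : R, F ∈ Q ↔ IsQS F := hQ
  obtain ⟨δ, hδ, hKR⟩ := KR.kleitmanRothschild
  obtain ⟨N1, h1⟩ := hKR δ hδ le_rfl (ε / 2) (by linarith)
  obtain ⟨N2, h2⟩ := almost_all_labels hQ' (det_main hQ') graph_bound typ_bound δ (ε / 2) hδ
    (by linarith)
  refine ⟨max N1 N2, fun n hn => ?_⟩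
  have h3 := h1 n (le_trans (le_max_left _ _) hn)
  have h4 := h2 n (le_trans (le_max_right _ _) hn)
  set L := Finset.univ.filter fun r : Fin n → Fin n → Prop => Layered δ n r with hL
  have e0 : KR.num n (KR.LayB δ n) = L.card := by
    rw [KR.num, hL]
    congr 1
    ext r
    simp only [Finset.mem_filter, Finset.mem_univ, true_and]
    exact ⟨fun h => h.2, fun h => ⟨layered_so h, h⟩⟩
  rw [e0] at h3
  have e1 : Nat.card {r : Fin n → Fin n → Prop // IsOrder r ∧
      ¬ ∀ w : Fin n → ℕ, Function.Injective w →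
        ∃ G : Q, (G : MvPowerSeries ℕ ℚ) = Gen r w ∧ Irreducible G} =
      (Finset.univ.filter fun r : Fin n → Fin n → Prop => IsOrder r ∧ ¬ IrrL Q r).card := by
    rw [Nat.card_eq_fintype_card, Fintype.card_subtype]
    congr 1
  have e2 : Nat.card {r : Fin n → Fin n → Prop // IsOrder r} =
      (Finset.univ.filter fun r : Fin n → Fin n → Prop => IsOrder r).card := by
    rw [Nat.card_eq_fintype_card, Fintype.card_subtype]
  rw [e1, e2]
  have h5 : (Finset.univ.filter fun r : Fin n → Fin n → Prop => IsOrder r ∧ ¬ IrrL Q r) ⊆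
      (Finset.univ.filter fun r : Fin n → Fin n → Prop => Layered δ n r ∧ ¬ IrrL Q r) ∪
      (Finset.univ.filter fun r : Fin n → Fin n → Prop => KR.SO r ∧ ¬ KR.LayB δ n r) := by
    intro r hr
    simp only [Finset.mem_union, Finset.mem_filter, Finset.mem_univ, true_and] at hr ⊢
    by_cases h : KR.LayB δ n r
    · exact Or.inl ⟨h, hr.2⟩
    · exact Or.inr ⟨hr.1, h⟩
  have h6 : L ⊆ (Finset.univ.filter fun r : Fin n → Fin n → Prop => IsOrder r) := by
    intro r hr
    simp only [hL, Finset.mem_filter, Finset.mem_univ, true_and] at hr ⊢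
    exact layered_so hr
  have h7 : ((Finset.univ.filter fun r : Fin n → Fin n → Prop =>
      IsOrder r ∧ ¬ IrrL Q r).card : ℝ) ≤
      ((Finset.univ.filter fun r : Fin n → Fin n → Prop =>
        Layered δ n r ∧ ¬ IrrL Q r).card : ℝ) +
      (KR.num n (fun r => ¬ KR.LayB δ n r) : ℝ) := by
    have := (Finset.card_le_card h5).trans (Finset.card_union_le _ _)
    have e3 : KR.num n (fun r => ¬ KR.LayB δ n r) =
        (Finset.univ.filter fun r : Fin n → Fin n → Prop => KR.SO r ∧ ¬ KR.LayB δ n r).card := by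
      rw [KR.num]
      congr 1
      ext r
      simp only [Finset.mem_filter, Finset.mem_univ, true_and]
    rw [e3]
    exact_mod_cast this
  have h8 : (L.card : ℝ) ≤
      ((Finset.univ.filter fun r : Fin n → Fin n → Prop => IsOrder r).card : ℝ) := by
    exact_mod_cast Finset.card_le_card h6
  have h9 := mul_le_mul_of_nonneg_left h8 hε.le
  linarith

end Pool.Agent.Results.MP_5bc52d_co.EveryLabelling
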