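import Mathlib
import Pool.Agent.Lib.MP_5bc52d_co.Key.Middle
import Pool.Agent.Lib.MP_5bc52d_co.Height2.Final

/-!
# Irreducibility of P-partition generating functions: an element comparable to all others

Let `(P, ω)` be a finite labelled poset; a relation `a < b` has kind `true` if the labels
increase and kind `false` if they decrease. The main result says that the generating function
is irreducible, for all labels, if `P` has an element `m` comparable to all others (for instance a
greatest or a least element) and the elements below `m` and those above `m` are divided into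
blocks without relations between different blocks, each of which is of one of several types:
posets without a chain of three elements, a type which contains all posets of width at most
three, all interval orders and all forests, the series-parallel posets, and two types that depend
on the labels. It is also irreducible if the poset is connected without a chain of three elements
and the elements from which the most elements can be reached by steps of one kind are all minimal
or all maximal. The generating function is also irreducible if the poset can be reduced to such a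
poset by peeling rules, which remove the largest initial or final part all of whose relations
have one kind.
-/

namespace Pool.Agent.Results.MP_5bc52d_co.GreatestElement

/-- The generating function of the `P`-partitions of the labelled poset `P, ω`. -/
noncomputable def Gen (P : Type) [Fintype P] [PartialOrder P] (ω : P → ℕ) : MvPowerSeries ℕ ℚ :=
  fun m : ℕ →₀ ℕ =>
    ((Nat.card {f : P → ℕ //
      (∀ a b : P, a < b → f a ≤ f b ∧ (ω b < ω a → f a < f b)) ∧
        ∑ p : P, Finsupp.single (f p) 1 = m} : ℕ) : ℚ)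

/-- The sum of the variables, the generating function of a point. -/
noncomputable def Point : MvPowerSeries ℕ ℚ :=
  fun m : ℕ →₀ ℕ => ((Nat.card {i : ℕ // Finsupp.single i 1 = m} : ℕ) : ℚ)

/-- The sum of the variables divides the generating function of `P, ω` in the ring `Q`. -/
def PointDvd (Q : Subring (MvPowerSeries ℕ ℚ)) (P : Type) [Fintype P] [PartialOrder P]
    (ω : P → ℕ) : Prop :=
  ∃ G T : Q, (G : MvPowerSeries ℕ ℚ) = Gen P ω ∧ (T : MvPowerSeries ℕ ℚ) = Point ∧ T ∣ G

/-- The sum of the variables divides the generating function of the subset `U`. -/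
def PointDvdOn {P : Type} [PartialOrder P] (Q : Subring (MvPowerSeries ℕ ℚ)) (ω : P → ℕ)
    (U : Finset P) : Prop :=
  PointDvd Q {x // x ∈ U} (fun x => ω x)


/-- The pair `a, b` has kind `k`: the labels increase (`true`) or decrease (`false`). -/
def Kind {P : Type} (ω : P → ℕ) (k : Bool) (a b : P) : Prop :=
  if k then ω a < ω b else ω b < ω a

/-- The elements of `D` below any element of `D` form a chain. -/
def Forest {P : Type} (lt : P → P → Prop) (D : Set P) : Prop :=
  ∀ x ∈ D, ∀ y ∈ D, ∀ z ∈ D, lt y x → lt z x → y = z ∨ lt y z ∨ lt z y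

/-- Series-parallel sets. -/
inductive SP {P : Type} (lt : P → P → Prop) : Set P → Prop
  | single (x : P) : SP lt {x}
  | par (X Y : Set P) : SP lt X → SP lt Y → (∀ x ∈ X, ∀ y ∈ Y, x ≠ y ∧ ¬ lt x y ∧ ¬ lt y x) →
      SP lt (X ∪ Y)
  | ser (X Y : Set P) : SP lt X → SP lt Y → (∀ x ∈ X, ∀ y ∈ Y, lt x y) → SP lt (X ∪ Y)

/-- The element `y` covers `x`. -/
def Cov {P : Type} (lt : P → P → Prop) (x y : P) : Prop :=
  lt x y ∧ ∀ t, lt x t → ¬ lt t y

/-- The elements `y` and `z` of `D` are incomparable and have an upper bound in `D`. -/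
def Pair {P : Type} (lt : P → P → Prop) (D : Set P) (y z : P) : Prop :=
  y ∈ D ∧ z ∈ D ∧ y ≠ z ∧ ¬ lt y z ∧ ¬ lt z y ∧ ∃ x ∈ D, lt y x ∧ lt z x

/-- For any two pairs as above, some element of `D` is at or above one member of each pair. -/
def Joined {P : Type} (lt : P → P → Prop) (D : Set P) : Prop :=
  ∀ y z y' z', Pair lt D y z → Pair lt D y' z' →
    ∃ a ∈ D, (y = a ∨ lt y a ∨ z = a ∨ lt z a) ∧ (y' = a ∨ lt y' a ∨ z' = a ∨ lt z' a)

/-- No element of `D` lies strictly between two others. -/
def Flat {P : Type} (lt : P → P → Prop) (D : Set P) : Prop :=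
  ∀ x ∈ D, ∀ y ∈ D, ∀ z ∈ D, lt x y → ¬ lt y z

/-- The conditions on a block `D` of elements below `m`. -/
def Nice {P : Type} (lt : P → P → Prop) (ω : P → ℕ) (m : P) (D : Set P) : Prop :=
  Flat lt D ∨ Joined lt D ∨ SP lt D ∨
  (∃ k : Bool, Forest lt {x | x ∈ D ∧
    ∀ a b, (a = x ∨ lt x a) → lt a b → (b = m ∨ lt b m) → Kind ω k a b}) ∨
  ∃ k : Bool, ∀ x ∈ D, ∀ y z, Cov lt x y → Cov lt x z → Kind ω k x y → Kind ω k x z → y = z

/-- There is an element `m` comparable to all others, and the elements below `m`, and for the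
reversed order the elements above `m`, are divided into blocks without relations between
different blocks which satisfy the conditions `Nice`. -/
def Blocks {P : Type} [PartialOrder P] (ω : P → ℕ) : Prop :=
  ∃ (m : P) (κ : P → ℕ), (∀ x, x ≠ m → x < m ∨ m < x) ∧
    (∀ x y, x < y → y < m ∨ m < x → κ x = κ y) ∧
    ∀ i, Nice (fun a b : P => a < b) ω m {x | x < m ∧ κ x = i} ∧
      Nice (fun a b : P => b < a) ω m {x | m < x ∧ κ x = i}

/-- No chain `x < y < z ≤ p` has its middle element labelled larger than both ends. -/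
def Tame {P : Type} [PartialOrder P] (w : P → ℤ) (p : P) : Prop :=
  ∀ x y z : P, x < y → y < z → z ≤ p → ¬ (w x < w y ∧ w z < w y)

/-- Exactly one tame element has a smaller label than every tame element comparable with it. -/
def OneLow (P : Type) [PartialOrder P] (w : P → ℤ) : Prop :=
  ∃! e : P, Tame w e ∧ ∀ x : P, Tame w x → (x < e ∨ e < x) → w e < w x

/-- The base case: `U`, or its dual, satisfies `OneLow` for the labels or for their negatives. -/
def Base {P : Type} [PartialOrder P] (ω : P → ℕ) (U : Finset P) : Prop :=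
  OneLow {x // x ∈ U} (fun p => (ω p : ℤ)) ∨ OneLow {x // x ∈ U} (fun p => -(ω p : ℤ)) ∨
    OneLow {x // x ∈ U}ᵒᵈ (fun p => (ω (OrderDual.ofDual p).1 : ℤ)) ∨
    OneLow {x // x ∈ U}ᵒᵈ (fun p => -(ω (OrderDual.ofDual p).1 : ℤ))

open Classical in
/-- The elements of `U` such that all relations of `U` at or below them have kind `k`. -/
noncomputable def Low {P : Type} [PartialOrder P] (ω : P → ℕ) (k : Bool) (U : Finset P) :
    Finset P :=
  {x ∈ U | ∀ a ∈ U, ∀ b ∈ U, a < b → b ≤ x → Kind ω k a b}

open Classical in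
/-- The elements of `U` such that all relations of `U` at or above them have kind `k`. -/
noncomputable def High {P : Type} [PartialOrder P] (ω : P → ℕ) (k : Bool) (U : Finset P) :
    Finset P :=
  {x ∈ U | ∀ a ∈ U, ∀ b ∈ U, a < b → x ≤ a → Kind ω k a b}

/-- `C` is the union of two nonempty sets without relations between them. -/
def Split {P : Type} [PartialOrder P] (C : Set P) : Prop :=
  ∃ X Y : Set P, C = X ∪ Y ∧ X.Nonempty ∧ Y.Nonempty ∧
    ∀ x ∈ X, ∀ y ∈ Y, x ≠ y ∧ ¬ x < y ∧ ¬ y < x

/-- The subset `U` is nonempty and connected. -/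
def ConnectedOn {P : Type} [PartialOrder P] (U : Finset P) : Prop :=
  U.Nonempty ∧ ¬ Split {x | x ∈ U}

/-- A step inside `U` to a comparable element; the labels increase (`k = true`) or decrease. -/
def Step {P : Type} [PartialOrder P] (ω : P → ℕ) (k : Bool) (U : Finset P) (a b : P) : Prop :=
  a ∈ U ∧ b ∈ U ∧ (a < b ∨ b < a) ∧ Kind ω k a b

/-- The number of elements which can be reached from `a` by steps. -/
noncomputable def reach {P : Type} [PartialOrder P] (ω : P → ℕ) (k : Bool) (U : Finset P)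
    (a : P) : ℕ :=
  Nat.card {b // Relation.ReflTransGen (Step ω k U) a b}

/-- The elements of `U` from which the largest number of elements can be reached are all minimal
in `U`, or all maximal in `U`. -/
def OneSided {P : Type} [PartialOrder P] (ω : P → ℕ) (k : Bool) (U : Finset P) : Prop :=
  (∀ a ∈ U, (∀ b ∈ U, reach ω k U b ≤ reach ω k U a) → ∀ c ∈ U, ¬ c < a) ∨
    ∀ a ∈ U, (∀ b ∈ U, reach ω k U b ≤ reach ω k U a) → ∀ c ∈ U, ¬ a < c

open Classical in
/-- The good subsets. -/
inductive Good {P : Type} [PartialOrder P] (Q : Subring (MvPowerSeries ℕ ℚ)) (ω : P → ℕ) :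
    Finset P → Prop
  | blocks (U : Finset P) : Blocks (P := {x // x ∈ U}) (fun x => ω x) → Good Q ω U
  | base (U : Finset P) : Base ω U → Good Q ω U
  | flat (U : Finset P) (k : Bool) : ConnectedOn U →
      (∀ a ∈ U, ∀ b ∈ U, ∀ c ∈ U, a < b → ¬ b < c) → OneSided ω k U → Good Q ω U
  | low (U : Finset P) (j k : Bool) : Disjoint (Low ω j U) (High ω k U) →
      Good Q ω (U \ Low ω j U) → Good Q ω U
  | high (U : Finset P) (j k : Bool) : Disjoint (Low ω j U) (High ω k U) →
      Good Q ω (U \ High ω k U) → Good Q ω U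
  | greatest (U C : Finset P) (m : P) (k : Bool) : m ∈ U → (∀ x ∈ U, x ≤ m) → C.Nonempty →
      (∀ x ∈ C, x ∈ U ∧ x ≠ m) → (∀ x ∈ C, ∀ y ∈ U, y ≠ m → (x < y ∨ y < x) → y ∈ C) →
      (∀ x ∈ C, (∀ z ∈ U, x < z → ¬ z < m) → Kind ω k x m) →
      Good Q ω (U \ Low ω (!k) U) → Good Q ω U
  | least (U C : Finset P) (m : P) (k : Bool) : m ∈ U → (∀ x ∈ U, m ≤ x) → C.Nonempty →
      (∀ x ∈ C, x ∈ U ∧ x ≠ m) → (∀ x ∈ C, ∀ y ∈ U, y ≠ m → (x < y ∨ y < x) → y ∈ C) →
      (∀ x ∈ C, (∀ z ∈ U, z < x → ¬ m < z) → Kind ω k m x) →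
      Good Q ω (U \ High ω (!k) U) → Good Q ω U
  | free (U : Finset P) (σ : Bool → Bool) : ConnectedOn U → ¬ PointDvdOn Q ω U →
      (∀ c, Good Q ω (U \ if σ c then Low ω c U else High ω c U)) → Good Q ω U

open Pool.Agent.Lib.MP_5bc52d_co Pool.Agent.Lib.MP_5bc52d_co.Cut Pool.Agent.Lib.MP_5bc52d_co.Key

section
variable {P : Type} [Fintype P] [DecidableEq P] {r : P → P → Prop} {v : Bool → P → ℤ}

theorem SP_SPr {D : Set P} (h : SP r D) : ∀ C : Finset P, (∀ x, x ∈ C ↔ x ∈ D) → SPr r C := by
  classical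
  induction h with
  | single x =>
    intro C hC
    have : C = {x} := by
      ext y
      rw [hC, Set.mem_singleton_iff, Finset.mem_singleton]
    rw [this]
    exact SPr.single x
  | par X Y _ _ h ihX ihY =>
    intro C hC
    have e : C = C.filter (· ∈ X) ∪ C.filter (· ∈ Y) := by
      ext y
      simp only [Finset.mem_union, Finset.mem_filter, hC, Set.mem_union]
      tauto
    rw [e]
    refine SPr.par _ _ (ihX _ ?_) (ihY _ ?_) ?_ ?_
    · intro x
      simp only [Finset.mem_filter, hC, Set.mem_union]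
      tauto
    · intro x
      simp only [Finset.mem_filter, hC, Set.mem_union]
      tauto
    · rw [Finset.disjoint_left]
      intro x hx hy
      exact (h x (Finset.mem_filter.mp hx).2 x (Finset.mem_filter.mp hy).2).1 rfl
    · intro x hx y hy
      exact (h x (Finset.mem_filter.mp hx).2 y (Finset.mem_filter.mp hy).2).2
  | ser X Y _ _ h ihX ihY =>
    intro C hC
    have e : C = C.filter (· ∈ X) ∪ C.filter (· ∈ Y) := by
      ext y
      simp only [Finset.mem_union, Finset.mem_filter, hC, Set.mem_union]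
      tauto
    rw [e]
    refine SPr.ser _ _ (ihX _ ?_) (ihY _ ?_) ?_
    · intro x
      simp only [Finset.mem_filter, hC, Set.mem_union]
      tauto
    · intro x
      simp only [Finset.mem_filter, hC, Set.mem_union]
      tauto
    · intro x hx y hy
      exact h x (Finset.mem_filter.mp hx).2 y (Finset.mem_filter.mp hy).2

theorem forest_one {D : Set P} {B : Finset P} (hB : ∀ x ∈ B, x ∈ D) (h : Forest r D) :
    OneUp (fun a b => r b a) B := by
  intro x hx y hy z hz hxy hxz hyc hzc
  rcases h x (hB x hx) y (hB y hy) z (hB z hz) hxy hxz with h | h | h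
  · exact h
  · exact absurd h (hyc z hz hxz)
  · exact absurd h (hzc y hy hxy)

theorem nice_KF (ht : ∀ x y z, r x y → r y z → r x z) (hi : ∀ x, ¬ r x x)
    (hv : ∀ c p, v (!c) p = - v c p) {ω : P → ℕ} (τ : Bool → Bool)
    (hτ : ∀ k a b, Kind ω k a b ↔ v (τ k) a < v (τ k) b) {m : P} {C : Finset P} (hmC : m ∉ C)
    (hm : ∀ p ∈ C, r p m) (hcl : ∀ x ∈ C, ∀ y, r x y → r y m → y ∈ C) {D : Set P}
    (hcomp : ∀ x, x ≠ m → r x m ∨ r m x)
    (hD : ∀ x, x ∈ C ↔ x ∈ D) (hN : Nice r ω m D) : KF r v m C := by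
  rcases hN with h | h | h | ⟨k, h⟩ | ⟨k, h⟩
  · exact Or.inr fun x hx y hy z hz =>
      h x ((hD x).mp hx) y ((hD y).mp hy) z ((hD z).mp hz)
  · refine Or.inl (Or.inl (one_pairs ht hi hv hmC hm fun x hx y hy z hz h1 h2 h3 h4 h5 x' hx' y'
      hy' z' hz' h1' h2' h3' h4' h5' => ?_))
    obtain ⟨a, ha, h6, h7⟩ := h y z y' z'
      ⟨(hD y).mp hy, (hD z).mp hz, h3, h4, h5, x, (hD x).mp hx, h1, h2⟩
      ⟨(hD y').mp hy', (hD z').mp hz', h3', h4', h5', x', (hD x').mp hx', h1', h2'⟩
    exact ⟨a, (hD a).mpr ha, h6, h7⟩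
  · exact Or.inl (Or.inr (Or.inl (Or.inr (SP_SPr h C hD))))
  · refine Or.inl (Or.inl ⟨τ k, forest_one ?_ h⟩)
    intro x hx
    rw [Finset.mem_erase, mem_AL] at hx
    obtain ⟨hxm, hxU, hx⟩ := hx
    have hxC : x ∈ C := (Finset.mem_insert.mp hxU).resolve_left hxm
    refine ⟨(hD x).mp hxC, fun a b hxa hab hbm => ?_⟩
    have hxb : r x b := by
      rcases hxa with h1 | h1
      · rw [← h1]; exact hab
      · exact ht _ _ _ h1 hab
    have hb : b ∈ insert m C := by
      rcases hbm with h1 | h1
      · exact Finset.mem_insert.mpr (Or.inl h1)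
      · exact Finset.mem_insert_of_mem (hcl x hxC b hxb h1)
    have ha : a ∈ insert m C := by
      rcases hxa with h1 | h1
      · rw [h1]; exact hxU
      · refine Finset.mem_insert_of_mem (hcl x hxC a h1 ?_)
        rcases hbm with h2 | h2
        · rw [← h2]; exact hab
        · exact ht _ _ _ hab h2
    have h1 := hx b hb a ha hab hxa
    rw [hv, hv] at h1
    rw [hτ]
    omega
  · refine Or.inl (Or.inr (Or.inr ⟨τ k, fun x hx y hy z hz hxy hxz hyc hzc h1 h2 => ?_⟩))
    have hcl' : ∀ x ∈ C, ∀ t, r x t → r t y ∨ r t z → t ∈ insert m C := by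
      intro x hx t hxt h5
      by_cases htm : t = m
      · exact Finset.mem_insert.mpr (Or.inl htm)
      · rcases hcomp t htm with h6 | h6
        · exact Finset.mem_insert_of_mem (hcl x hx t hxt h6)
        · exfalso
          have h7 : ∀ s ∈ insert m C, ¬ r m s := by
            intro s hs h8
            rcases Finset.mem_insert.mp hs with h9 | h9
            · rw [h9] at h8
              exact hi m h8
            · exact hi m (ht _ _ _ h8 (hm s h9))
          rcases h5 with h5 | h5
          · exact h7 y hy (ht _ _ _ h6 h5)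
          · exact h7 z hz (ht _ _ _ h6 h5)
    rcases Finset.mem_insert.mp hx with h3 | h3
    · subst h3
      rcases Finset.mem_insert.mp hy with h4 | h4
      · rw [h4] at hxy
        exact absurd hxy (hi x)
      · exact absurd (ht _ _ _ hxy (hm y h4)) (hi x)
    · exact h x ((hD x).mp h3) y z
        ⟨hxy, fun t hxt hty => hyc t (hcl' x h3 t hxt (Or.inl hty)) hxt hty⟩
        ⟨hxz, fun t hxt htz => hzc t (hcl' x h3 t hxt (Or.inr htz)) hxt htz⟩
        ((hτ k x y).mpr h1) ((hτ k x z).mpr h2)

theorem blocks_KG (ht : ∀ x y z, r x y → r y z → r x z) (hi : ∀ x, ¬ r x x)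
    (hv : ∀ c p, v (!c) p = - v c p) {ω : P → ℕ} (τ : Bool → Bool)
    (hτ : ∀ k a b, Kind ω k a b ↔ v (τ k) a < v (τ k) b) {m : P} {κ : P → ℕ}
    (hcomp : ∀ x, x ≠ m → r x m ∨ r m x) (hκ : ∀ x y, r x y → r y m → κ x = κ y)
    {C : Finset P} (hC : ∀ x, x ∈ C ↔ r x m)
    (h : ∀ i, Nice r ω m {x | r x m ∧ κ x = i}) : KG r v m C := by
  refine ⟨κ, fun x hx y hy hxy => hκ x y hxy ((hC y).mp hy), fun x hx => ?_⟩
  refine nice_KF ht hi hv τ hτ ?_ ?_ ?_ hcomp ?_ (h (κ x))
  · intro h1
    exact hi m ((hC m).mp (Finset.mem_filter.mp h1).1)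
  · intro p hp
    exact (hC p).mp (Finset.mem_filter.mp hp).1
  · intro a ha b hab hbm
    rw [Finset.mem_filter] at ha ⊢
    exact ⟨(hC b).mpr hbm, (hκ a b hab hbm).symm.trans ha.2⟩
  · intro y
    rw [Finset.mem_filter, hC]
    exact Iff.rfl

end

theorem aux {P : Type} [Fintype P] [DecidableEq P] (r : P → P → Prop) (w : P → ℤ)
    (hw : Function.Injective w) (hi : ∀ x, ¬ r x x)
    (T : P → Prop)
    (hT : ∀ p, T p ↔ ∀ x y z : P, r x y → r y z → (r z p ∨ z = p) → ¬ (w x < w y ∧ w z < w y))
    (h : ∃! e : P, T e ∧ ∀ x : P, T x → (r x e ∨ r e x) → w e < w x) :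
    ∃! e, LocMin r w (JJ r w) e := by
  have h1 : ∀ p, p ∈ JJ r w ↔ T p := by
    intro p
    rw [mem_JJ, hT]
    constructor
    · intro h x y z hxy hyz hz hh
      have := h x y z hxy hyz hz hh.1
      omega
    · intro h x y z hxy hyz hz hh
      have h3 := h x y z hxy hyz hz
      have h4 : w y ≠ w z := fun h5 => by
        have := hw h5
        subst this
        exact hi y hyz
      omega
  obtain ⟨e, he, hu⟩ := h
  refine ⟨e, ⟨(h1 e).mpr he.1, fun x hx hxe => he.2 x ((h1 x).mp hx) hxe⟩, fun e' he' => ?_⟩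
  exact hu e' ⟨(h1 e').mp he'.1, fun x hx hxe => he'.2 x ((h1 x).mpr hx) hxe⟩

theorem irr_base {Q : Subring R} (hQ : ∀ F : R, F ∈ Q ↔ IsQS F) {P : Type} [Fintype P]
    [DecidableEq P] [PartialOrder P] (ω : P → ℕ) (hω : Function.Injective ω)
    (h : OneLow P (fun p => (ω p : ℤ)) ∨ OneLow P (fun p => -(ω p : ℤ)) ∨
      OneLow Pᵒᵈ (fun p => (ω (OrderDual.ofDual p) : ℤ)) ∨
      OneLow Pᵒᵈ (fun p => -(ω (OrderDual.ofDual p) : ℤ))) :
    Irreducible (GamQ hQ ω (Finset.univ : Finset P)) := by
  have hω' : Function.Injective (fun p => (ω p : ℤ)) := fun a b h => hω (by simpa using h)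
  have hωn : Function.Injective (fun p => -(ω p : ℤ)) := fun a b h => hω (by simpa using h)
  have hlt : ∀ x : P, ¬ (fun a b : P => a < b) x x := fun x => lt_irrefl x
  have hgt : ∀ x : P, ¬ (fun a b : P => b < a) x x := fun x => lt_irrefl x
  have key1 : ∀ w : P → ℤ, Function.Injective w → OneLow P w →
      ∃! e, LocMin (fun a b : P => a < b) w (JJ (fun a b : P => a < b) w) e := by
    intro w hw h
    refine aux (fun a b : P => a < b) w hw hlt (Tame w) ?_ h
    intro p
    constructor
    · intro h x y z h1 h2 h3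
      exact h x y z h1 h2 (by rcases h3 with h3 | h3; exacts [le_of_lt h3, le_of_eq h3])
    · intro h x y z h1 h2 h3
      exact h x y z h1 h2 (lt_or_eq_of_le h3)
  have key2 : ∀ w : P → ℤ, Function.Injective w →
      OneLow Pᵒᵈ (fun p => w (OrderDual.ofDual p)) →
      ∃! e, LocMin (fun a b : P => b < a) w (JJ (fun a b : P => b < a) w) e := by
    intro w hw h
    refine aux (fun a b : P => b < a) w hw hgt
      (fun p => Tame (P := Pᵒᵈ) (fun p => w (OrderDual.ofDual p)) (OrderDual.toDual p)) ?_ h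
    intro p
    constructor
    · intro h x y z h1 h2 h3
      refine h (OrderDual.toDual x) (OrderDual.toDual y) (OrderDual.toDual z) h1 h2 ?_
      rcases h3 with h3 | h3
      · exact le_of_lt h3
      · exact le_of_eq (congrArg OrderDual.toDual h3)
    · intro h x y z h1 h2 h3
      refine h (OrderDual.ofDual x) (OrderDual.ofDual y) (OrderDual.ofDual z) h1 h2 ?_
      rcases lt_or_eq_of_le h3 with h3 | h3
      · exact Or.inl h3
      · exact Or.inr (congrArg OrderDual.ofDual h3)
  rcases h with h | h | h | h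
  · exact irreducible_bottom hQ ω hω (Or.inl (key1 _ hω' h))
  · exact irreducible_bottom hQ ω hω (Or.inr (key1 _ hωn h))
  · refine irreducible_top hQ ω hω (Or.inr ?_)
    have h1 := key2 _ hω' h
    have h2 : (-fun p => -(ω p : ℤ)) = fun p : P => (ω p : ℤ) := by
      funext p; simp
    rw [h2]
    exact h1
  · exact irreducible_top hQ ω hω (Or.inl (key2 _ hωn h))

section
variable {P : Type} [PartialOrder P]

theorem mem_Low {ω : P → ℕ} {k : Bool} {U : Finset P} {x : P} :
    x ∈ Low ω k U ↔ x ∈ U ∧ ∀ a ∈ U, ∀ b ∈ U, a < b → b ≤ x → Kind ω k a b := by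
  unfold Low
  simp only [Finset.mem_filter]

theorem mem_High {ω : P → ℕ} {k : Bool} {U : Finset P} {x : P} :
    x ∈ High ω k U ↔ x ∈ U ∧ ∀ a ∈ U, ∀ b ∈ U, a < b → x ≤ a → Kind ω k a b := by
  unfold High
  simp only [Finset.mem_filter]

theorem kind_iff [Fintype P] [DecidableEq P] (ω : P → ℕ) (k : Bool) (a b : P) :
    Kind ω k a b ↔ wt ω k a < wt ω k b :=
  (wt_lt ω k a b).symm

theorem kind_iff' [Fintype P] [DecidableEq P] (ω : P → ℕ) (k : Bool) (a b : P) :
    Kind ω k a b ↔ wt ω (!k) b < wt ω (!k) a := by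
  rw [kind_iff, wt_not, Pi.neg_apply, Pi.neg_apply]
  constructor
  · intro h; omega
  · intro h; omega

theorem low_eq [Fintype P] [DecidableEq P] (ω : P → ℕ) (k : Bool) (U : Finset P) :
    Low ω k U = AL (fun a b : P => a < b) (wt ω k) U := by
  ext x
  rw [mem_AL, mem_Low]
  refine and_congr_right fun _ => ?_
  constructor
  · intro h a ha b hb hab hbx
    refine (kind_iff ω k a b).mp (h a ha b hb hab ?_)
    rcases hbx with h1 | h1
    · exact h1.le
    · exact h1.le
  · intro h a ha b hb hab hbx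
    exact (kind_iff ω k a b).mpr (h a ha b hb hab hbx.eq_or_lt)

theorem high_eq [Fintype P] [DecidableEq P] (ω : P → ℕ) (k : Bool) (U : Finset P) :
    High ω k U = AL (fun a b : P => b < a) (wt ω (!k)) U := by
  ext x
  rw [mem_AL, mem_High]
  refine and_congr_right fun _ => ?_
  constructor
  · intro h a ha b hb hab hbx
    refine (kind_iff' ω k b a).mp (h b hb a ha hab ?_)
    rcases hbx with h1 | h1
    · exact h1.ge
    · exact h1.le
  · intro h a ha b hb hab hbx
    exact (kind_iff' ω k a b).mpr (h b hb a ha hab (hbx.eq_or_lt.imp Eq.symm id))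

end

section
variable {P : Type} [Fintype P] [PartialOrder P] {Q : Subring R}
  (hQ : ∀ F : R, F ∈ Q ↔ IsQS F)

theorem gen_eq (ω : P → ℕ) : Gam ω (Finset.univ : Finset P) = Gen P ω := by
  classical
  funext m
  change (Nat.card (Sol ω (Finset.univ : Finset P) m) : ℚ) = (Nat.card _ : ℚ)
  congr 1
  apply Nat.card_congr
  apply Equiv.subtypeEquivRight
  intro f
  change ((∀ p, p ∉ (Finset.univ : Finset P) → f p = 0) ∧ _ ∧ cnt Finset.univ f = m) ↔ _
  simp [cnt]

theorem gen_sub [DecidableEq P] (ω : P → ℕ) (U : Finset P) :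
    Gam ω U = Gen {x // x ∈ U} (fun x => ω x) := by
  rw [Gam_subtype, ← gen_eq]

theorem point_eq [DecidableEq P] (ω : P → ℕ) (x : P) : Gam ω {x} = Point := by
  funext m
  change (Nat.card (Sol ω {x} m) : ℚ) = (Nat.card {i : ℕ // Finsupp.single i 1 = m} : ℚ)
  congr 1
  refine Nat.card_congr ⟨fun f => ⟨f.1 x, ?_⟩, fun i => ⟨fun p => if p = x then i.1 else 0, ?_⟩,
    ?_, ?_⟩
  · have h := f.2.2.2
    rw [cnt, Finset.sum_singleton] at h
    exact h
  · refine ⟨fun p hp => if_neg (fun h => hp (Finset.mem_singleton.mpr h)), ?_, ?_⟩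
    · intro a ha b hb hab
      rw [Finset.mem_singleton] at ha hb
      rw [ha, hb] at hab
      exact absurd hab (lt_irrefl x)
    · rw [cnt, Finset.sum_singleton, if_pos rfl]
      exact i.2
  · intro f
    apply Subtype.ext
    funext p
    by_cases hp : p = x
    · subst hp
      exact if_pos rfl
    · change (if p = x then f.1 x else 0) = f.1 p
      rw [if_neg hp]
      exact (f.2.1 p (fun h => hp (Finset.mem_singleton.mp h))).symm
  · intro i
    exact Subtype.ext (if_pos rfl)

include hQ

theorem irr_iff [DecidableEq P] (ω : P → ℕ) :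
    (∃ G : Q, (G : MvPowerSeries ℕ ℚ) = Gen P ω ∧ Irreducible G) ↔
      Irreducible (GamQ hQ ω (Finset.univ : Finset P)) := by
  constructor
  · rintro ⟨G, hG, h⟩
    have : G = GamQ hQ ω (Finset.univ : Finset P) :=
      Subtype.ext (hG.trans (gen_eq ω).symm)
    rwa [← this]
  · intro h
    exact ⟨_, gen_eq ω, h⟩

theorem dvd_sub [DecidableEq P] (ω : P → ℕ) (U : Finset P) {x : P}
    (h : GamQ hQ ω {x} ∣ GamQ hQ ω U) : PointDvdOn Q ω U :=
  ⟨GamQ hQ ω U, GamQ hQ ω {x}, gen_sub ω U, point_eq ω x, h⟩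

omit hQ in
theorem kind_lt (ω : P → ℕ) (k : Bool) (a b : P) : Kind ω k a b ↔ wt ω k a < wt ω k b := by
  classical
  exact kind_iff ω k a b

omit hQ in
theorem kind_gt (ω : P → ℕ) (k : Bool) (a b : P) :
    Kind ω k a b ↔ (fun c => wt ω (!c)) (!k) a < (fun c => wt ω (!c)) (!k) b := by
  classical
  change _ ↔ wt ω (!!k) a < wt ω (!!k) b
  rw [Bool.not_not]
  exact kind_iff ω k a b

theorem irr_blocks [DecidableEq P] {ω : P → ℕ} (hω : Function.Injective ω) (h : Blocks ω) :
    Irreducible (GamQ hQ ω (Finset.univ : Finset P)) := by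
  classical
  obtain ⟨m, κ, hcomp, hκ, h⟩ := h
  have h1 := blocks_KG (r := fun a b : P => a < b) (v := wt ω)
      (fun x y z h1 h2 => lt_trans h1 h2) (fun x => lt_irrefl x) (wt_hv hQ ω) id
      (fun k a b => kind_lt ω k a b) (m := m) (κ := κ) hcomp
      (fun x y hxy hym => hκ x y hxy (Or.inl hym))
      (C := Finset.univ.filter fun x => x < m) (fun x => by simp) (fun i => (h i).1)
  have h2 := blocks_KG (r := fun a b : P => b < a)
      (v := fun c => wt ω (!c)) (fun x y z h1 h2 => lt_trans h2 h1) (fun x => lt_irrefl x)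
      (fun c p => wt_hv hQ ω (!c) p) (fun k => !k) (fun k a b => kind_gt ω k a b) (m := m)
      (κ := κ) (fun x hx => (hcomp x hx).symm)
      (fun x y hxy hym => (hκ y x hxy (Or.inr hym)).symm)
      (C := Finset.univ.filter fun x => m < x) (fun x => by simp) (fun i => (h i).2)
  have h3 := class_middle hQ hω _ (Finset.univ.filter fun x => x < m)
    (Finset.univ.filter fun x => m < x) le_rfl (fun p hp => (Finset.mem_filter.mp hp).2)
    (fun p hp => (Finset.mem_filter.mp hp).2) h1 h2
  have h4 : insert m ((Finset.univ.filter fun x => x < m) ∪ (Finset.univ.filter fun x => m < x)) =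
      (Finset.univ : Finset P) := by
    ext x
    simp only [Finset.mem_insert, Finset.mem_union, Finset.mem_filter, Finset.mem_univ, true_and,
      iff_true]
    by_cases hx : x = m
    · exact Or.inl hx
    · exact Or.inr (hcomp x hx)
  rwa [h4] at h3

omit hQ in
theorem conn_of {U : Finset P} (h : ConnectedOn U) : Conn U := by
  classical
  obtain ⟨-, hconn⟩ := h
  intro S hSU hS hcl
  by_contra hne
  apply hconn
  obtain ⟨y, hyU, hyS⟩ : ∃ y ∈ U, y ∉ S := by
    by_contra hcon
    push Not at hcon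
    exact hne (Finset.Subset.antisymm hSU hcon)
  refine ⟨{x | x ∈ S}, {x | x ∈ U ∧ x ∉ S}, ?_, hS, ⟨y, hyU, hyS⟩, ?_⟩
  · ext z
    simp only [Set.mem_setOf_eq, Set.mem_union]
    by_cases hz : z ∈ S
    · simp [hz, hSU hz]
    · simp [hz]
  · intro a ha b hb
    exact ⟨fun h => hb.2 (h ▸ ha), fun h => hb.2 (hcl a ha b hb.1 (Or.inl h)),
      fun h => hb.2 (hcl a ha b hb.1 (Or.inr h))⟩

open Classical in
theorem irr_good {ω : P → ℕ}
    (hω : Function.Injective ω) {U : Finset P} (h : Good Q ω U) : Irreducible (GamQ hQ ω U) := by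
  induction h with
  | blocks U h =>
    rw [GamQ_subtype hQ ω U]
    exact irr_blocks hQ (ω := fun x : {x // x ∈ U} => ω x)
      (fun a b hab => Subtype.ext (hω hab)) h
  | base U h =>
    rw [GamQ_subtype hQ ω U]
    exact irr_base hQ (fun x : {x // x ∈ U} => ω x)
      (fun a b hab => Subtype.ext (hω hab)) h
  | flat U k hconn h3 h =>
    exact Height2.irreducible_height2 hQ hω U hconn.1 (conn_of hconn) h3 k h
  | low U j k hd _ ih =>
    rw [low_eq, high_eq] at hd
    rw [low_eq] at ih
    exact rule_low hQ hω U j k hd ih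
  | high U j k hd _ ih =>
    rw [low_eq, high_eq] at hd
    rw [high_eq] at ih
    exact rule_high hQ hω U j k hd ih
  | greatest U C m k hm hmax hne hC hsep hcov _ ih =>
    rw [low_eq] at ih
    exact rule_greatest hQ hω U C m k hm hmax hne hC hsep
      (fun x hx h => (kind_iff ω k x m).mp (hcov x hx h)) ih
  | least U C m k hm hmin hne hC hsep hcov _ ih =>
    rw [high_eq, Bool.not_not] at ih
    exact rule_least hQ hω U C m k hm hmin hne hC hsep
      (fun x hx h => (kind_iff ω k m x).mp (hcov x hx h)) ih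
  | free U σ hconn hn _ ih =>
    obtain ⟨x, hx⟩ := hconn.1
    refine (rule_dvd hQ hω (conn_of hconn) x hx (fun c => ?_)).resolve_right
      (fun h => hn (dvd_sub hQ ω U h))
    have h2 := ih c
    split_ifs at h2 with h3
    · left
      rwa [low_eq] at h2
    · right
      rwa [high_eq] at h2

end

open Classical in
/-- The generating function of a good labelled poset is irreducible. -/
theorem result :
    ∀ (Q : Subring (MvPowerSeries ℕ ℚ)),
      (∀ F : MvPowerSeries ℕ ℚ, F ∈ Q ↔
        ((∃ N : ℕ, ∀ m : ℕ →₀ ℕ, N < m.sum (fun _ e => e) → F m = 0) ∧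
          ∀ m : ℕ →₀ ℕ, ∀ g : ℕ → ℕ, StrictMono g → F (Finsupp.mapDomain g m) = F m)) →
      ∀ (P : Type) [Fintype P] [PartialOrder P] (ω : P → ℕ), Function.Injective ω →
        Good Q ω Finset.univ →
        ∃ G : Q, (G : MvPowerSeries ℕ ℚ) = Gen P ω ∧ Irreducible G := by
  intro Q hQ P _ _ ω hω h
  have hQ' : ∀ F : R, F ∈ Q ↔ IsQS F := hQ
  exact (irr_iff hQ' ω).mpr (by convert irr_good hQ' hω h)

end Pool.Agent.Results.MP_5bc52d_co.GreatestElement
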