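import Mathlib
import Pool.Agent.Lib.MP_5bc52d_co.Lin.Final

/-!
# Irreducibility of P-partition generating functions: an arithmetic criterion

Let `(P, ω)` be a labelled poset with `n` elements, connected or not. The signed counts
`N c` of the linear extensions of the posets left after removing an increasing initial part and a
decreasing final part with `c` elements together are integers. If the generating function of
`(P, ω)` is reducible, then they factor in the ring of divided power polynomials. In particular it
is irreducible, whatever the labelling, if the number of linear extensions of `P` is divisible by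
none of the binomial coefficients `n.choose a` with `0 < a < n`, and it is irreducible if
`N (n - p ^ k)` is not divisible by the prime `p` for some `p ^ k ≤ n`.
-/

namespace Pool.Agent.Results.MP_5bc52d_co.LinearExtensions

/-- The number of linear extensions of the order induced on `M`. -/
noncomputable def linExt {P : Type} [PartialOrder P] (M : Finset P) : ℕ :=
  Nat.card {f : {x // x ∈ M} ≃ Fin M.card // StrictMono f}

/-- `I` and `J` are disjoint, `I` is closed downwards and `w` increases along the order in it,
`J` is closed upwards and `w` decreases along the order in it. -/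
def Removable {P : Type} [PartialOrder P] (w : P → ℤ) (I J : Finset P) : Prop :=
  Disjoint I J ∧ (∀ b ∈ I, ∀ a, a < b → a ∈ I ∧ w a < w b) ∧
    (∀ a ∈ J, ∀ b, a < b → b ∈ J ∧ w b < w a)

open Classical in
/-- The sum, over the pairs `(I, J)` of removable parts with `c` elements together, of
`(-1) ^ |J|` times the number of linear extensions of the rest. -/
noncomputable def signedCount {P : Type} [Fintype P] [PartialOrder P] (w : P → ℤ) (c : ℕ) : ℤ :=
  ∑ x : Finset P × Finset P, if Removable w x.1 x.2 ∧ x.1.card + x.2.card = c then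
    (-1) ^ x.2.card * (linExt (Finset.univ \ (x.1 ∪ x.2)) : ℤ) else 0

/-- The polynomial `∑ m, signedCount w (a + b - m) X ^ m / m!` is a product of two polynomials
`∑ i, α i X ^ i / i!` and `∑ j, β j X ^ j / j!` with integers `α i`, `β j`, without constant
terms, of degrees at most `a` and `b`. -/
def Factors {P : Type} [Fintype P] [PartialOrder P] (w : P → ℤ) (a b : ℕ) : Prop :=
  ∃ α β : ℕ → ℤ, α 0 = 0 ∧ β 0 = 0 ∧ (∀ i, a < i → α i = 0) ∧ (∀ j, b < j → β j = 0) ∧
    ∀ m ≤ a + b, signedCount w (a + b - m) =
      ∑ i ∈ Finset.range (m + 1), (m.choose i : ℤ) * (α i * β (m - i))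

open Pool.Agent.Lib.MP_5bc52d_co Finset

open Classical in
theorem signedCount_eq {P : Type} [Fintype P] [PartialOrder P] (w : P → ℤ) (c : ℕ) :
    signedCount w c = NN w c := rfl

open Classical in
theorem factors_of_fac {P : Type} [Fintype P] [PartialOrder P] {w : P → ℤ}
    {a b : ℕ} (h : Fac w a b) : Factors w a b := by
  obtain ⟨α, β, h1, h2, h3, h4, h5⟩ := h
  refine ⟨α, β, h1, h2, h3, h4, fun m hm => ?_⟩
  rw [signedCount_eq, h5 m hm]
  exact Finset.Nat.sum_antidiagonal_eq_sum_range_succ
    (fun i j => (m.choose i : ℤ) * (α i * β j)) m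

theorem lext_univ (P : Type) [Fintype P] [PartialOrder P] :
    lext (univ : Finset P) = Nat.card {f : P ≃ Fin (Fintype.card P) // StrictMono f} := by
  rw [lext]
  refine Nat.card_congr
    ⟨fun f => ⟨((Equiv.subtypeUnivEquiv (fun x => Finset.mem_univ x)).symm.trans f.1 :
        P ≃ Fin (univ : Finset P).card), fun a b hab => f.2 hab⟩,
      fun f => ⟨(Equiv.subtypeUnivEquiv (fun x => Finset.mem_univ x)).trans f.1,
        fun a b hab => f.2 hab⟩, fun f => ?_, fun f => ?_⟩
  · apply Subtype.ext
    ext x
    rfl
  · apply Subtype.ext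
    ext x
    rfl

theorem choose_dvd {P : Type} [Fintype P] [DecidableEq P] [PartialOrder P] {w : P → ℤ}
    {a b : ℕ} (hab : a + b = Fintype.card P) (h : Fac w a b) :
    (Fintype.card P).choose a ∣ lext (univ : Finset P) := by
  classical
  obtain ⟨α, β, h1, h2, h3, h4, h5⟩ := h
  have h6 := h5 (a + b) le_rfl
  have h7 : NN w (a + b - (a + b)) = (lext (univ : Finset P) : ℤ) := by
    rw [NN, Finset.sum_eq_single (∅, ∅)]
    · rw [if_pos]
      · simp
      · exact ⟨⟨Finset.disjoint_empty_left _, fun b hb => by simp at hb,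
          fun a ha => by simp at ha⟩, by simp⟩
    · intro x _ hx
      rw [if_neg]
      rintro ⟨-, h8⟩
      apply hx
      have h9 : x.1.card = 0 := by omega
      have h10 : x.2.card = 0 := by omega
      rw [Finset.card_eq_zero] at h9 h10
      exact Prod.ext h9 h10
    · intro h8
      exact absurd (Finset.mem_univ _) h8
  rw [h7, Finset.sum_eq_single (a, b)] at h6
  · rw [hab] at h6
    have h8 : ((Fintype.card P).choose a : ℤ) ∣ (lext (univ : Finset P) : ℤ) := by
      rw [h6]
      exact Dvd.intro _ rfl
    exact_mod_cast h8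
  · intro ij hij hne
    rw [HasAntidiagonal.mem_antidiagonal] at hij
    by_cases h8 : a < ij.1
    · rw [h3 _ h8]
      ring
    · by_cases h9 : b < ij.2
      · rw [h4 _ h9]
        ring
      · exfalso
        apply hne
        ext
        · simp only; omega
        · simp only; omega
  · intro h8
    exfalso
    apply h8
    rw [HasAntidiagonal.mem_antidiagonal]

theorem prime_dvd {P : Type} [Fintype P] [DecidableEq P] [PartialOrder P] {w : P → ℤ}
    {a b : ℕ} (h : Fac w a b) {p k : ℕ} (hp : p.Prime) (hk : p ^ k ≤ a + b) :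
    (p : ℤ) ∣ NN w (a + b - p ^ k) := by
  obtain ⟨α, β, h1, h2, h3, h4, h5⟩ := h
  rw [h5 _ hk]
  apply Finset.dvd_sum
  intro ij hij
  rw [HasAntidiagonal.mem_antidiagonal] at hij
  by_cases h6 : ij.1 = 0
  · rw [h6, h1]
    simp
  · by_cases h7 : ij.1 = p ^ k
    · have h8 : ij.2 = 0 := by omega
      rw [h8, h2]
      simp
    · apply Dvd.dvd.mul_right
      exact_mod_cast hp.dvd_choose_pow h6 h7

/-- The generating function of a nonempty labelled poset is irreducible if its sequences of
signed counts do not factor; in particular if no binomial coefficient divides the number of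
linear extensions, or if some signed count is not divisible by a prime. -/
theorem result :
    ∀ (Q : Subring (MvPowerSeries ℕ ℚ)),
      (∀ F : MvPowerSeries ℕ ℚ, F ∈ Q ↔
        ((∃ N : ℕ, ∀ m : ℕ →₀ ℕ, N < m.sum (fun _ e => e) → F m = 0) ∧
          ∀ m : ℕ →₀ ℕ, ∀ g : ℕ → ℕ, StrictMono g → F (Finsupp.mapDomain g m) = F m)) →
      ∀ (P : Type) [Fintype P] [PartialOrder P] [Nonempty P] (ω : P → ℕ),
        Function.Injective ω →
        ((∀ a b : ℕ, 0 < a → 0 < b → a + b = Fintype.card P →
            ¬ (Factors (fun x : P => (ω x : ℤ)) a b ∧ Factors (fun x : P => -(ω x : ℤ)) a b)) ∨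
          (∀ a : ℕ, 0 < a → a < Fintype.card P →
            ¬ ((Fintype.card P).choose a ∣
              Nat.card {f : P ≃ Fin (Fintype.card P) // StrictMono f})) ∨
          (∃ p k : ℕ, p.Prime ∧ p ^ k ≤ Fintype.card P ∧
            (¬ (p : ℤ) ∣ signedCount (fun x : P => (ω x : ℤ)) (Fintype.card P - p ^ k) ∨
              ¬ (p : ℤ) ∣ signedCount (fun x : P => -(ω x : ℤ)) (Fintype.card P - p ^ k)))) →
        ∀ G : Q, (G : MvPowerSeries ℕ ℚ) =
          ((fun m : ℕ →₀ ℕ =>
            ((Nat.card {f : P → ℕ //
              (∀ a b : P, a < b → f a ≤ f b ∧ (ω b < ω a → f a < f b)) ∧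
                ∑ p : P, Finsupp.single (f p) 1 = m} : ℕ) : ℚ)) : MvPowerSeries ℕ ℚ) →
          Irreducible G := by
  intro Q hQ P _ _ _ ω hω h G hG
  classical
  have hQ' : ∀ F : R, F ∈ Q ↔ IsQS F := hQ
  have hG' : G = GamQ hQ' ω (Finset.univ : Finset P) := by
    apply Subtype.ext
    rw [hG]
    funext m
    change _ = (Nat.card (Sol ω (Finset.univ : Finset P) m) : ℚ)
    congr 1
    apply Nat.card_congr
    apply Equiv.subtypeEquivRight
    intro f
    change _ ↔ ((∀ p, p ∉ (Finset.univ : Finset P) → f p = 0) ∧ _ ∧ cnt Finset.univ f = m)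
    simp [cnt]
  by_contra hcon
  rw [hG'] at hcon
  obtain ⟨a, b, ha, hb, hab, h1, h2⟩ := fac_of_reducible hQ' ω hω hcon
  rcases h with h | h | ⟨p, k, hp, hk, h⟩
  · exact h a b ha hb hab ⟨factors_of_fac h1, factors_of_fac h2⟩
  · apply h a ha (by omega)
    rw [← lext_univ]
    exact choose_dvd hab h1
  · rw [signedCount_eq, signedCount_eq, ← hab] at h
    rw [← hab] at hk
    rcases h with h | h
    · exact h (prime_dvd h1 hp hk)
    · exact h (prime_dvd h2 hp hk)

end Pool.Agent.Results.MP_5bc52d_co.LinearExtensions
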