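import Mathlib
import Pool.Agent.Lib.MP_5bc52d_co.LinTerm.Word
import Pool.Agent.Lib.MP_5bc52d_co.Cyc.Final

/-!
# Irreducibility of P-partition generating functions: a nonzero linear term

Let `I` be the ideal of the quasisymmetric functions without constant term. A homogeneous element
which does not belong to `I ^ 2` is irreducible. We give a recursively defined class of labelled
posets whose generating function does not belong to `I ^ 2`; with at most five elements it
consists of all connected labelled posets with this property.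
-/

namespace Pool.Agent.Results.MP_5bc52d_co.LinearTerm

variable {P : Type} [PartialOrder P]

/-- The label of `x`, with the sign `+` for `k = true` and `-` for `k = false`. -/
def lab (ω : P → ℕ) (k : Bool) (x : P) : ℤ := if k = true then (ω x : ℤ) else -(ω x : ℤ)

/-- For `x`, `y` in `U`: `y` covers `x` in the order induced on `U`. -/
def CovIn (U : Finset P) (x y : P) : Prop := x < y ∧ ∀ z ∈ U, x < z → ¬ z < y

/-- `x` has a way up: it is covered in `U` by an element which belongs to `M` or has a larger
signed label. -/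
def WayUp (w : P → ℤ) (U M : Finset P) (x : P) : Prop :=
  ∃ y ∈ U, CovIn U x y ∧ (y ∈ M ∨ w x < w y)

/-- `x` has a way down: it covers in `U` an element which belongs to `M` or has a larger signed
label. -/
def WayDown (w : P → ℤ) (U M : Finset P) (x : P) : Prop :=
  ∃ y ∈ U, CovIn U y x ∧ (y ∈ M ∨ w x < w y)

/-- `M` is a core of `U`: every other element of `U` has a way up or a way down, but not both. -/
def Core (w : P → ℤ) (U M : Finset P) : Prop :=
  M ⊆ U ∧ ∀ x ∈ U, x ∉ M →
    (WayUp w U M x ∨ WayDown w U M x) ∧ ¬ (WayUp w U M x ∧ WayDown w U M x)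

/-- `M` is connected: it is not empty and not the union of two nonempty parts without relations
between them. -/
def Conn (M : Finset P) : Prop :=
  M.Nonempty ∧ ∀ S T : Finset P, (∀ x, x ∈ M ↔ x ∈ S ∨ x ∈ T) → S.Nonempty → T.Nonempty →
    Disjoint S T → ∃ a ∈ S, ∃ b ∈ T, a < b ∨ b < a

/-- `N` is a connected core of `U` with the smallest number of elements. -/
def Least (w : P → ℤ) (U N : Finset P) : Prop :=
  Core w U N ∧ Conn N ∧ ∀ N', Core w U N' → Conn N' → N.card ≤ N'.card

open Classical in
/-- The sign of a core `N` of `U`: the parity of the number of elements outside `N` which have a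
way down, plus the number of strict relations in `N`. -/
noncomputable def sign (ω : P → ℕ) (k : Bool) (U N : Finset P) : ℤ :=
  (-1) ^ (U.filter (fun x => x ∉ N ∧ WayDown (lab ω k) U N x)).card *
    (-1) ^ ((N ×ˢ N).filter (fun p => p.1 < p.2 ∧ ω p.2 < ω p.1)).card

/-- The recursively defined class of subsets `U` of a labelled poset.
* `one`: the point `z` has neither a way up nor a way down to a larger signed label, every other
  element has a way up or a way down, with target `z` or with a larger signed label, but not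
  both.
* `step`: `U` has exactly one connected core with the smallest number of elements, and this core
  belongs to the class.
* `small`: the connected cores of `U` with the smallest number of elements have at most two
  elements, and the sum of their signs is not zero. -/
inductive Lin (ω : P → ℕ) : Finset P → Prop
  | one (k : Bool) (U : Finset P) (z : P) : z ∈ U → Core (lab ω k) U {z} →
      ¬ WayUp (lab ω k) U ∅ z → ¬ WayDown (lab ω k) U ∅ z → Lin ω U
  | step (k : Bool) (U M : Finset P) : (∀ N, Least (lab ω k) U N ↔ N = M) → Lin ω M → Lin ω U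
  | small (k : Bool) (U : Finset P) (L : Finset (Finset P)) :
      (∀ N, N ∈ L ↔ Least (lab ω k) U N) → (∀ N ∈ L, N.card ≤ 2) →
      ∑ N ∈ L, sign ω k U N ≠ 0 → Lin ω U

/-- A cover relation `a ⋖ b` is weak if `ω a < ω b` and strict if `ω b < ω a`. After changing the
type of `e` (if `e` is a cover relation), no cycle of the Hasse diagram contains both a weak and a
strict cover relation. -/
def NoMixedCycleUpTo (ω : P → ℕ) (e : P × P) : Prop :=
  ∀ (v : P) (c : (SimpleGraph.hasse P).Walk v v), c.IsCycle →
    (∀ a b : P, a ⋖ b → s(a, b) ∈ c.edges → (ω a < ω b ↔ (a, b) ≠ e)) ∨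
    (∀ a b : P, a ⋖ b → s(a, b) ∈ c.edges → (ω b < ω a ↔ (a, b) ≠ e))

open Pool.Agent.Lib.MP_5bc52d_co Pool.Agent.Lib.MP_5bc52d_co.Cut Finset

omit [PartialOrder P] in
theorem lab_eq (ω : P → ℕ) (k : Bool) : lab ω k = Cut.wt ω k := by
  funext x
  cases k <;> simp [lab, Cut.wt]

variable [Fintype P]

section

variable [DecidableEq P]

omit [Fintype P] in
theorem conn_iff (M : Finset P) : Conn M ↔ LinTerm.Cnn M := by
  constructor
  · rintro ⟨h1, h2⟩
    refine ⟨h1, fun S T hST hS hT hd hno => ?_⟩
    obtain ⟨a, ha, b, hb, hab⟩ := h2 S T (fun x => by rw [← hST, Finset.mem_union]) hS hT hd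
    rcases hab with hab | hab
    · exact (hno a ha b hb).1 hab
    · exact (hno a ha b hb).2 hab
  · rintro ⟨h1, h2⟩
    refine ⟨h1, fun S T hST hS hT hd => ?_⟩
    by_contra hno
    push Not at hno
    exact h2 S T (by ext x; rw [hST x, Finset.mem_union]) hS hT hd hno

omit [Fintype P] in
theorem least_iff (w : P → ℤ) (U N : Finset P) : Least w U N ↔ LinTerm.Least w U N := by
  rw [Least, LinTerm.Least, conn_iff]
  refine and_congr Iff.rfl (and_congr Iff.rfl ?_)
  constructor
  · intro h N' h1 h2
    exact h N' h1 ((conn_iff N').mpr h2)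
  · intro h N' h1 h2
    exact h N' h1 ((conn_iff N').mp h2)

omit [Fintype P] in
theorem lin_of {ω : P → ℕ} {U : Finset P} (h : Lin ω U) : LinTerm.Lin ω U := by
  induction h with
  | one k U z h1 h2 h3 h4 =>
    rw [lab_eq] at h2 h3 h4
    exact LinTerm.Lin.one k U z h1 h2 h3 h4
  | step k U M h1 _ ih =>
    rw [lab_eq] at h1
    exact LinTerm.Lin.step k U M (fun N => (least_iff _ _ _).symm.trans (h1 N)) ih
  | small k U L h1 h2 h3 =>
    refine LinTerm.Lin.small k U L ?_ h2 ?_
    · rw [lab_eq] at h1
      exact fun N => (h1 N).trans (least_iff _ _ _)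
    · have : ∀ N, sign ω k U N = LinTerm.sgn ω k U N := by
        intro N
        rw [sign, lab_eq, LinTerm.sgn]
        congr
      simpa only [this] using h3

end

theorem gen_eq (ω : P → ℕ) : Gam ω (Finset.univ : Finset P) =
    ((fun m : ℕ →₀ ℕ => ((Nat.card {f : P → ℕ //
      (∀ a b : P, a < b → f a ≤ f b ∧ (ω b < ω a → f a < f b)) ∧
        ∑ p : P, Finsupp.single (f p) 1 = m} : ℕ) : ℚ)) : MvPowerSeries ℕ ℚ) := by
  classical
  funext m
  change (Nat.card (Sol ω (Finset.univ : Finset P) m) : ℚ) = (Nat.card _ : ℚ)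
  congr 1
  apply Nat.card_congr
  apply Equiv.subtypeEquivRight
  intro f
  change ((∀ p, p ∉ (Finset.univ : Finset P) → f p = 0) ∧ _ ∧ cnt Finset.univ f = m) ↔ _
  simp [cnt]

/-- The generating function of a connected labelled poset which belongs to the class `Lin` or has
no mixed cycle, up to one cover relation, is irreducible in the ring of quasisymmetric functions,
and it does not belong to the square of the ideal of the functions without constant term. -/
theorem result :
    ∀ (Q : Subring (MvPowerSeries ℕ ℚ)),
      (∀ F : MvPowerSeries ℕ ℚ, F ∈ Q ↔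
        ((∃ N : ℕ, ∀ m : ℕ →₀ ℕ, N < m.sum (fun _ e => e) → F m = 0) ∧
          ∀ m : ℕ →₀ ℕ, ∀ g : ℕ → ℕ, StrictMono g → F (Finsupp.mapDomain g m) = F m)) →
      ∀ (P : Type) [Fintype P] [PartialOrder P] (ω : P → ℕ), Function.Injective ω →
        (SimpleGraph.fromRel (fun a b : P => a ≤ b)).Connected →
        (Lin ω Finset.univ ∨ ∃ e : P × P, NoMixedCycleUpTo ω e) →
        ∀ G : Q, (G : MvPowerSeries ℕ ℚ) =
          ((fun m : ℕ →₀ ℕ =>
            ((Nat.card {f : P → ℕ //
              (∀ a b : P, a < b → f a ≤ f b ∧ (ω b < ω a → f a < f b)) ∧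
                ∑ p : P, Finsupp.single (f p) 1 = m} : ℕ) : ℚ)) : MvPowerSeries ℕ ℚ) →
          Irreducible G ∧ ∀ I : Ideal Q,
            (∀ F : Q, F ∈ I ↔ MvPowerSeries.coeff 0 (F : MvPowerSeries ℕ ℚ) = 0) → G ∉ I ^ 2 := by
  intro Q hQ P _ _ ω hω hP hne G hG
  classical
  have : Nonempty P := hP.nonempty
  have hQ' : ∀ F : R, F ∈ Q ↔ IsQS F := hQ
  have hG' : G = GamQ hQ' ω (univ : Finset P) := Subtype.ext (hG.trans (gen_eq ω).symm)
  have hsq : G ∉ (RingHom.ker (cc Q)) ^ 2 := by
    rw [hG']
    rcases hne with h | ⟨e, h⟩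
    · exact (lin_of h).notMem_sq hQ' hω
    · exact Cyc.Final.GamQ_notMem_sq hQ' hω hP (e := e) h
  constructor
  · rw [hG'] at hsq ⊢
    exact LinTerm.irreducible_of_notMem_sq hQ' ω Finset.univ_nonempty hsq
  · intro I hI
    have hIe : I = RingHom.ker (cc Q) := by
      ext F
      rw [hI, RingHom.mem_ker, cc_apply]
    rw [hIe]
    exact hsq

end Pool.Agent.Results.MP_5bc52d_co.LinearTerm
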